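import Pool.Agent.R676.Cox.Root
import Pool.Agent.Y462.SS.Base

set_option autoImplicit false

/-!
# Shephard groups with even orders: definitions, and the minimal representatives of cosets
-/

namespace Pool.Agent.N509.SH

open Pool.Agent.R676.Cox
open Pool.Agent.Helper741 (qs cc qs_add_two qs_zero qs_one cc_symm cc_self qs_nonneg)

/-- the alternating product of `k` factors `a` and `b`, the last factor of which is `a` -/
def alr {G : Type} [Monoid G] (a b : G) : ℕ → G
  | 0 => 1
  | k + 1 => (if Even k then a else b) * alr a b k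

theorem alr_succ {G : Type} [Monoid G] (a b : G) (k : ℕ) :
    alr a b (k + 1) = (if Even k then a else b) * alr a b k := rfl

theorem alr_succ' {G : Type} [Monoid G] (a b : G) (k : ℕ) :
    alr a b (k + 1) = alr b a k * a := by
  induction k with
  | zero => simp [alr]
  | succ k ih =>
    rw [alr_succ, ih, alr_succ b a, ← mul_assoc]
    congr 2
    by_cases h : Even k
    · simp [h, Nat.even_add_one]
    · simp [h, Nat.even_add_one]

theorem map_alr {G H : Type} [Monoid G] [Monoid H] (f : G →* H) (a b : G) (k : ℕ) :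
    f (alr a b k) = alr (f a) (f b) k := by
  induction k with
  | zero => simp [alr]
  | succ k ih =>
    rw [alr_succ, alr_succ, map_mul, ih]
    split_ifs <;> rfl

/-- the relators of the Shephard group: the braid relations of the lengths `M s t`, and
`s ^ p s = 1` -/
def rels {S : Type} (M : CoxeterMatrix S) (p : S → ℕ) : Set (FreeGroup S) :=
  {r | (∃ s t, M s t ≠ 0 ∧ r = alr (FreeGroup.of s) (FreeGroup.of t) (M s t) *
      (alr (FreeGroup.of t) (FreeGroup.of s) (M s t))⁻¹) ∨ ∃ s, r = FreeGroup.of s ^ p s}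

/-- The Shephard group of `(M, p)`: generated by the elements `s` of `S`, with the braid relations of
length `M s t` (none if `M s t = 0`) and the relations `s ^ p s = 1` (none if `p s = 0`). It is the
Artin group of `M` for `p = 0` and the Coxeter group of `M` for `p = 2`. -/
abbrev Shep {S : Type} (M : CoxeterMatrix S) (p : S → ℕ) : Type := PresentedGroup (rels M p)

section minimal

variable {S T W : Type} [Group W] {M : CoxeterMatrix S} (cs : CoxeterSystem M W) (ι : T → S)

/-- the elements of minimal length in their left cosets of the parabolic subgroup -/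
def Mr : Set W := {y | ∀ t, 0 ≤ geo cs y (ee (ι t))}

variable {cs ι}

theorem Mr_step {y : W} (hy : y ∈ Mr cs ι) {s : S} (h : ¬ ∃ t, geo cs y (ee (ι t)) = ee s) :
    cs.simple s * y ∈ Mr cs ι := by
  intro t
  have hPR : PR cs (geo cs y (ee (ι t))) := ⟨(isRt_ee cs _).geo y, hy t⟩
  rw [← geo_geo]
  rcases (hPR.root.geo (cs.simple s)).cases with h1 | h1
  · exact h1
  · exact absurd ⟨t, hPR.eq_ee h1⟩ h

theorem Mr_back {y : W} (hy : y ∈ Mr cs ι) {s : S} :
    ¬ ∃ t, geo cs (cs.simple s * y) (ee (ι t)) = ee s := by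
  rintro ⟨t, ht⟩
  rw [← geo_geo] at ht
  have h1 : geo cs y (ee (ι t)) = - ee s := by
    apply geo_injective_apply cs (cs.simple s)
    rw [ht, map_neg, geo_simple, sg_ee_self, neg_neg]
  have h2 := hy t
  rw [h1] at h2
  exact (isRt_ee cs s).not_both (ee_nonneg s) (neg_nonneg.1 h2)

open Classical in
/-- the move -/
noncomputable def pmf (cs : CoxeterSystem M W) (ι : T → S) (s : S) (y : Mr cs ι) : Mr cs ι :=
  if h : ∃ t, geo cs y.1 (ee (ι t)) = ee s then y else ⟨cs.simple s * y.1, Mr_step y.2 h⟩

theorem pmf_loop {s : S} {y : Mr cs ι} (h : ∃ t, geo cs y.1 (ee (ι t)) = ee s) :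
    pmf cs ι s y = y := by
  rw [pmf, dif_pos h]

theorem pmf_move {s : S} {y : Mr cs ι} (h : ¬ ∃ t, geo cs y.1 (ee (ι t)) = ee s) :
    (pmf cs ι s y).1 = cs.simple s * y.1 := by
  rw [pmf, dif_neg h]

theorem pmf_invol (s : S) : Function.Involutive (pmf cs ι s) := by
  intro y
  by_cases h : ∃ t, geo cs y.1 (ee (ι t)) = ee s
  · rw [pmf_loop h, pmf_loop h]
  · have h1 := pmf_move h
    have h2 : ¬ ∃ t, geo cs (pmf cs ι s y).1 (ee (ι t)) = ee s := by
      rw [h1]
      exact Mr_back y.2
    apply Subtype.ext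
    rw [pmf_move h2, h1, cs.simple_mul_simple_cancel_left]

/-- supported in the image of `ι` -/
def Sp (ι : T → S) (β : S →₀ ℝ) : Prop := ∀ b, β b ≠ 0 → ∃ t, ι t = b

theorem Sp_ee (t : T) : Sp ι (ee (ι t)) := by
  classical
  intro b hb
  refine ⟨t, ?_⟩
  by_contra h
  apply hb
  rw [ee, Finsupp.single_apply, if_neg h]

theorem Sp_add {β β' : S →₀ ℝ} (h : Sp ι β) (h' : Sp ι β') : Sp ι (β + β') := by
  intro b hb
  by_cases h1 : β b = 0
  · refine h' b fun h2 => hb ?_
    rw [Finsupp.add_apply, h1, h2, add_zero]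
  · exact h b h1

theorem Sp_smul {β : S →₀ ℝ} (a : ℝ) (h : Sp ι β) : Sp ι (a • β) := by
  intro b hb
  refine h b fun h2 => hb ?_
  rw [Finsupp.smul_apply, h2, smul_zero]

theorem geo_sum (y : W) (β : S →₀ ℝ) :
    geo cs y β = ∑ b ∈ β.support, β b • geo cs y (ee b) := by
  conv_lhs => rw [← Finsupp.sum_single β]
  rw [Finsupp.sum, map_sum]
  refine Finset.sum_congr rfl fun b _ => ?_
  rw [← map_smul]
  congr 1
  simp [ee]

theorem geo_pos {y : W} (hy : y ∈ Mr cs ι) {β : S →₀ ℝ} (hβ : Sp ι β) (h0 : 0 ≤ β) :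
    0 ≤ geo cs y β := by
  rw [geo_sum]
  refine Finset.sum_nonneg fun b hb => ?_
  obtain ⟨t, rfl⟩ := hβ b (Finsupp.mem_support_iff.1 hb)
  exact smul_nonneg (h0 _) (hy t)

theorem geo_neg' {y : W} (hy : y ∈ Mr cs ι) {β : S →₀ ℝ} (hβ : Sp ι β) (h0 : β ≤ 0) :
    geo cs y β ≤ 0 := by
  have h1 : Sp ι (-β) := by
    have := Sp_smul (-1) hβ
    simpa using this
  have h2 := geo_pos hy h1 (neg_nonneg.2 h0)
  rw [map_neg] at h2
  exact neg_nonneg.1 h2

/-- a simple root in the image of the parabolic span is the image of a simple root -/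
theorem simple_of {y : W} (hy : y ∈ Mr cs ι) {β : S →₀ ℝ} (hβ : Sp ι β) {s : S}
    (h : geo cs y β = ee s) : ∃ t, geo cs y (ee (ι t)) = ee s := by
  have hrt : IsRt cs β := by
    have h1 : β = geo cs y⁻¹ (ee s) := by rw [← h, geo_inv_apply]
    rw [h1]
    exact (isRt_ee cs s).geo _
  have h0 : 0 ≤ β := by
    rcases hrt.cases with h1 | h1
    · exact h1
    · have h2 := geo_neg' hy hβ h1
      rw [h] at h2
      exact ((isRt_ee cs s).not_both (ee_nonneg s) h2).elim
  have hne : β.support.Nonempty := by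
    rw [Finset.nonempty_iff_ne_empty, Ne, Finsupp.support_eq_empty]
    exact hrt.ne_zero
  obtain ⟨b, hb⟩ := hne
  have hb' := Finsupp.mem_support_iff.1 hb
  obtain ⟨t, rfl⟩ := hβ b hb'
  have hbp : 0 < β (ι t) := lt_of_le_of_ne (h0 _) (Ne.symm hb')
  refine ⟨t, ?_⟩
  have hPR : PR cs (geo cs y (ee (ι t))) := ⟨(isRt_ee cs _).geo y, hy t⟩
  have hle : β (ι t) • geo cs y (ee (ι t)) ≤ ee s := by
    rw [← h, geo_sum y β]
    refine Finset.single_le_sum (f := fun b => β b • geo cs y (ee b)) (fun c hc => ?_) hb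
    obtain ⟨t', rfl⟩ := hβ c (Finsupp.mem_support_iff.1 hc)
    exact smul_nonneg (h0 _) (hy t')
  have h3 : geo cs y (ee (ι t)) = (geo cs y (ee (ι t)) s) • ee s := by
    ext j
    by_cases hj : j = s
    · subst hj
      simp [ee]
    · have h4 := hle j
      rw [Finsupp.smul_apply, smul_eq_mul] at h4
      have h5 : (ee s : S →₀ ℝ) j = 0 := by
        classical
        rw [ee, Finsupp.single_apply, if_neg (Ne.symm hj)]
      rw [h5] at h4
      have h6 : 0 ≤ geo cs y (ee (ι t)) j := hy t j
      have h7 : geo cs y (ee (ι t)) j = 0 := by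
        rcases h6.eq_or_lt with h | h
        · exact h.symm
        · exact absurd h4 (not_le.2 (mul_pos hbp h))
      rw [h7, Finsupp.smul_apply, h5, smul_zero]
  exact hPR.eq_of_smul (PR_ee cs s) h3

/-- two different positive roots in a plane of two simple roots and in the image of the parabolic
span -/
theorem two_roots {y : W} (hy : y ∈ Mr cs ι) {β β' : S →₀ ℝ} (hβ : Sp ι β) (hβ' : Sp ι β')
    {s t : S} {a b a' b' : ℝ} (h : geo cs y β = a • ee s + b • ee t)
    (h' : geo cs y β' = a' • ee s + b' • ee t) (hv : PR cs (a • ee s + b • ee t))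
    (hv' : PR cs (a' • ee s + b' • ee t))
    (hne : (a • ee s + b • ee t : S →₀ ℝ) ≠ a' • ee s + b' • ee t) :
    (∃ u, geo cs y (ee (ι u)) = ee s) ∧ ∃ u, geo cs y (ee (ι u)) = ee t := by
  have hD : a * b' - a' * b ≠ 0 := by
    intro h0
    apply hne
    by_cases ha : a' = 0
    · by_cases hb : b' = 0
      · exact (hv'.root.ne_zero (by rw [ha, hb, zero_smul, zero_smul, add_zero])).elim
      · refine hv.eq_of_smul hv' (a := b / b') ?_
        rw [smul_add, smul_smul, smul_smul, div_mul_cancel₀ _ hb]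
        congr 2
        field_simp
        linarith
    · refine hv.eq_of_smul hv' (a := a / a') ?_
      rw [smul_add, smul_smul, smul_smul, div_mul_cancel₀ _ ha]
      congr 2
      field_simp
      linarith
  constructor
  · refine simple_of hy (β := (b' / (a * b' - a' * b)) • β + (-b / (a * b' - a' * b)) • β')
      (Sp_add (Sp_smul _ hβ) (Sp_smul _ hβ')) ?_
    rw [map_add, map_smul, map_smul, h, h', smul_add, smul_add, smul_smul, smul_smul, smul_smul,
      smul_smul]
    have e1 : b' / (a * b' - a' * b) * a + -b / (a * b' - a' * b) * a' = 1 := by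
      rw [div_mul_eq_mul_div, div_mul_eq_mul_div, ← add_div, div_eq_one_iff_eq hD]
      ring
    have e2 : b' / (a * b' - a' * b) * b + -b / (a * b' - a' * b) * b' = 0 := by
      rw [div_mul_eq_mul_div, div_mul_eq_mul_div, ← add_div, div_eq_zero_iff]
      left
      ring
    calc _ = (b' / (a * b' - a' * b) * a + -b / (a * b' - a' * b) * a') • ee s +
        (b' / (a * b' - a' * b) * b + -b / (a * b' - a' * b) * b') • ee t := by
          rw [add_smul, add_smul]
          abel
      _ = _ := by rw [e1, e2, one_smul, zero_smul, add_zero]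
  · refine simple_of hy (β := (-a' / (a * b' - a' * b)) • β + (a / (a * b' - a' * b)) • β')
      (Sp_add (Sp_smul _ hβ) (Sp_smul _ hβ')) ?_
    rw [map_add, map_smul, map_smul, h, h', smul_add, smul_add, smul_smul, smul_smul, smul_smul,
      smul_smul]
    have e1 : -a' / (a * b' - a' * b) * a + a / (a * b' - a' * b) * a' = 0 := by
      rw [div_mul_eq_mul_div, div_mul_eq_mul_div, ← add_div, div_eq_zero_iff]
      left
      ring
    have e2 : -a' / (a * b' - a' * b) * b + a / (a * b' - a' * b) * b' = 1 := by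
      rw [div_mul_eq_mul_div, div_mul_eq_mul_div, ← add_div, div_eq_one_iff_eq hD]
      ring
    calc _ = (-a' / (a * b' - a' * b) * a + a / (a * b' - a' * b) * a') • ee s +
        (-a' / (a * b' - a' * b) * b + a / (a * b' - a' * b) * b') • ee t := by
          rw [add_smul, add_smul]
          abel
      _ = _ := by rw [e1, e2, one_smul, zero_smul, zero_add]

end minimal

end Pool.Agent.N509.SH
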