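import Pool.Agent.N509.SH.Hom
import Pool.Agent.N24.FV.Main

set_option autoImplicit false

/-!
# The image of a Shephard group in the product of the Coxeter group and the wreath product
-/

namespace Pool.Agent.N509.SH

open Pool.Agent.R676.Cox
open Pool.Agent.Y462.SS (Wr)
open Pool.Agent.Y110.FJ (ClosedE)
open Pool.Agent.N24.FV (IsFam main_fam)

section fam

variable {G Q Y A : Type} [Group G] [Group Q] [Group A] (π : G →* Q) (Φ : G →* Wr Y A)

/-- homomorphisms to a wreath product with trivial permutations on the kernel and finitely many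
labels -/
theorem range_mem {C : ∀ (G : Type) [Group G], Prop} (hC : ClosedE C) (hQ : C Q) (hA : C A)
    (hker : ∀ w, π w = 1 → (Φ w).p = 1) (hfin : ∀ w, (Set.range (Φ w).s).Finite) :
    C (π.prod Φ).range := by
  classical
  obtain ⟨q, hq⟩ : ∃ q : (π.prod Φ).range →* Q, ∀ h, q h = h.1.1 :=
    ⟨(MonoidHom.fst Q (Wr Y A)).comp (π.prod Φ).range.subtype, fun _ => rfl⟩
  have hp : ∀ n : q.ker, n.1.1.2.p = 1 := by
    rintro ⟨⟨_, ⟨w, rfl⟩⟩, hn⟩
    rw [MonoidHom.mem_ker, hq] at hn
    exact hker w hn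
  have hf : ∀ n : (π.prod Φ).range, (Set.range n.1.2.s).Finite := by
    rintro ⟨_, ⟨w, rfl⟩⟩
    exact hfin w
  have hcQ : C ((π.prod Φ).range ⧸ q.ker) :=
    hC.base.of_injective _ Q (QuotientGroup.kerLift q) (QuotientGroup.kerLift_injective q) hQ
  refine main_fam hC _ q.ker hcQ fun g => ⟨A, inferInstance, Y, fun y =>
    { toFun := fun n => n.1.1.2.s y
      map_one' := rfl
      map_mul' := fun a b => by
        show a.1.1.2.s (b.1.1.2.p y) * b.1.1.2.s y = _
        rw [hp b]
        rfl }, hA, ?_⟩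
  have hconj : ∀ (x : Y) (n : q.ker), (g * n * g⁻¹ : (π.prod Φ).range).1.2.s (g.1.2.p x) =
      g.1.2.s x * n.1.1.2.s x * (g.1.2.s x)⁻¹ := by
    intro x n
    show g.1.2.s (n.1.1.2.p (g.1.2.p⁻¹ (g.1.2.p x))) * n.1.1.2.s (g.1.2.p⁻¹ (g.1.2.p x)) *
      (g.1.2.s (g.1.2.p⁻¹ (g.1.2.p x)))⁻¹ = _
    rw [hp n]
    simp
  refine ⟨?_, ?_, ?_, ?_⟩
  · intro n hn
    apply Subtype.ext
    apply Subtype.ext
    apply Prod.ext
    · have h1 : q n.1 = 1 := n.2
      rw [hq] at h1
      exact h1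
    · apply Wr.ext
      · funext y
        exact hn y
      · exact hp n
  · intro E hE
    have hE' : Finite E := hE
    obtain ⟨F, hF⟩ : ∃ F : Y → (E → A), ∀ y n, F y n = n.1.1.1.2.s y := ⟨fun y n => n.1.1.1.2.s y,
      fun _ _ => rfl⟩
    have h1 : (Set.range F).Finite := by
      refine (Set.Finite.pi' fun n : E => hf n.1.1).subset ?_
      rintro _ ⟨y, rfl⟩ n
      exact ⟨y, (hF y n).symm⟩
    have h2 : Finite (Set.range F) := h1
    refine ⟨Set.range fun r : Set.range F => r.2.choose, Set.finite_range _, fun x => ?_⟩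
    refine ⟨_, ⟨⟨F x, x, rfl⟩, rfl⟩, 1, fun n hn => ?_⟩
    have h3 : F (⟨F x, x, rfl⟩ : Set.range F).2.choose = F x :=
      (⟨F x, x, rfl⟩ : Set.range F).2.choose_spec
    have h4 := congrFun h3 ⟨n, hn⟩
    rw [hF, hF] at h4
    rw [one_mul, inv_one, mul_one]
    exact h4.symm
  · intro x E _
    exact ⟨g.1.2.p x, g.1.2.s x, fun n _ => hconj x n⟩
  · intro x E _
    refine ⟨g.1.2.p⁻¹ x, g.1.2.s (g.1.2.p⁻¹ x), fun n _ => ?_⟩
    have h1 := hconj (g.1.2.p⁻¹ x) n
    have h2 : g.1.2.p (g.1.2.p⁻¹ x) = x := Equiv.apply_symm_apply _ _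
    rw [h2] at h1
    exact h1

end fam

section shep

variable {S T W : Type} [Group W] {M : CoxeterMatrix S} (cs : CoxeterSystem M W)
  {p : S → ℕ} {ι : T → S} (hι : Function.Injective ι)

theorem geo_out (hp : Ord M p) (a : Shep (cm M ι hι) fun t => p (ι t)) (v : S →₀ ℝ) {b : S}
    (hb : ¬ ∃ t, ι t = b) : (geo cs (piT cs hι hp a) v) b = v b := by
  refine sh_ind (P := fun a => ∀ v : S →₀ ℝ, (geo cs (piT cs hι hp a) v) b = v b) ?_ ?_ ?_ ?_ a v
  · intro v
    simp
  · intro x y hx hy v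
    rw [map_mul, ← geo_geo, hx, hy]
  · intro x hx v
    have h1 := hx (geo cs (piT cs hι hp x)⁻¹ v)
    rw [geo_apply_inv] at h1
    rw [map_inv]
    exact h1.symm
  · intro t v
    classical
    rw [piT, MonoidHom.comp_apply, inc_of, toC_of, geo_simple, sg_apply, Finsupp.sub_apply,
      Finsupp.smul_apply, ee, Finsupp.single_apply, if_neg fun h => hb ⟨t, h⟩, smul_zero, sub_zero]

/-- uniqueness of the minimal representative -/
theorem rep_unique (hp : Ord M p) {y y' : Mr cs ι} {a : Shep (cm M ι hι) fun t => p (ι t)}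
    (h : y'.1 * piT cs hι hp a = y.1) : piT cs hι hp a = 1 := by
  by_contra hne
  obtain ⟨s, hs⟩ := cs.exists_rightDescent_of_ne_one hne
  have h1 : geo cs (piT cs hι hp a) (ee s) ≤ 0 := geo_nonpos cs _ s hs
  by_cases hst : ∃ t, ι t = s
  · obtain ⟨t, rfl⟩ := hst
    have hsp : Sp ι (geo cs (piT cs hι hp a) (ee (ι t))) := by
      intro b hb
      by_contra hb'
      apply hb
      rw [geo_out cs hι hp a _ hb']
      classical
      rw [ee, Finsupp.single_apply, if_neg fun h => hb' ⟨t, h⟩]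
    have h2 := geo_neg' y'.2 hsp h1
    rw [geo_geo, h] at h2
    exact ((isRt_ee cs (ι t)).geo y.1).not_both (y.2 t) h2
  · have h2 := h1 s
    rw [geo_out cs hι hp a _ hst, ee, Finsupp.single_eq_same] at h2
    exact absurd h2 (by norm_num)

theorem perm_trivial (hp : Ord M p) {w : Shep M p} (hw : toC cs hp w = 1) :
    (Ph cs hι hp w).p = 1 := by
  apply Equiv.ext
  intro y
  have h1 := track cs hι hp w y
  rw [hw, one_mul] at h1
  have h2 := rep_unique cs hι hp h1
  rw [h2, mul_one] at h1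
  exact Subtype.ext h1

theorem labels_finite [Finite T] (hp : Ord M p) (w : Shep M p) :
    (Set.range (Ph cs hι hp w).s).Finite := by
  refine sh_ind (P := fun w => (Set.range (Ph cs hι hp w).s).Finite) ?_ ?_ ?_ ?_ w
  · rw [map_one]
    refine (Set.finite_singleton 1).subset ?_
    rintro _ ⟨y, rfl⟩
    rfl
  · intro x y hx hy
    rw [map_mul]
    refine (hx.mul hy).subset ?_
    rintro _ ⟨z, rfl⟩
    exact Set.mul_mem_mul ⟨_, rfl⟩ ⟨_, rfl⟩
  · intro x hx
    rw [map_inv]
    refine hx.inv.subset ?_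
    rintro _ ⟨z, rfl⟩
    rw [Set.mem_inv]
    refine ⟨(Ph cs hι hp x).p⁻¹ z, ?_⟩
    show _ = ((((Ph cs hι hp x).s ((Ph cs hι hp x).p⁻¹ z)))⁻¹)⁻¹
    rw [inv_inv]
  · intro s
    rw [Ph_of]
    refine ((Set.finite_singleton 1).union
      (Set.finite_range fun t : T => (PresentedGroup.of t :
        Shep (cm M ι hι) fun t => p (ι t)))).subset ?_
    rintro _ ⟨y, rfl⟩
    by_cases h : ∃ t, geo cs y.1 (ee (ι t)) = ee s
    · obtain ⟨t, ht⟩ := h
      right
      exact ⟨t, (sig_loop hι (g := fun t => (PresentedGroup.of t :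
        Shep (cm M ι hι) fun t => p (ι t))) ht).1.symm⟩
    · left
      exact (sig_move (g := fun t => (PresentedGroup.of t :
        Shep (cm M ι hι) fun t => p (ι t))) h).1

omit [Group W] in
/-- a homomorphism to a group in `C` which is injective on the parabolic subgroup -/
theorem exists_hom {C : ∀ (G : Type) [Group G], Prop} (hC : ClosedE C) [Finite T] (hp : Ord M p)
    (hW : C M.Group) (hT : C (Shep (cm M ι hι) fun t => p (ι t))) :
    ∃ (P : Type) (_ : Group P) (f : Shep M p →* P), C P ∧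
      Function.Injective (f.comp (inc M p hι)) := by
  refine ⟨((toC M.toCoxeterSystem hp).prod (Ph M.toCoxeterSystem hι hp)).range, inferInstance,
    ((toC M.toCoxeterSystem hp).prod (Ph M.toCoxeterSystem hι hp)).rangeRestrict,
    range_mem _ _ hC hW hT (fun w hw => perm_trivial M.toCoxeterSystem hι hp hw)
      (fun w => labels_finite M.toCoxeterSystem hι hp w), ?_⟩
  rw [injective_iff_map_eq_one]
  intro a ha
  have h1 := congrArg Subtype.val ha
  have h2 : Ph M.toCoxeterSystem hι hp (inc M p hι a) = 1 := congrArg Prod.snd h1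
  have h3 := (Ph_inc M.toCoxeterSystem hι hp a).1
  rw [h2] at h3
  exact h3.symm

end shep

end Pool.Agent.N509.SH
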