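import Pool.Agent.N509.SH.Ind

set_option autoImplicit false

/-!
# The homomorphism from a Shephard group to the wreath product of a parabolic Shephard group with the
permutations of the cosets, and the homomorphism to the Coxeter group
-/

namespace Pool.Agent.N509.SH

open Pool.Agent.R676.Cox
open Pool.Agent.Y462.SS (Wr)

/-- the conditions on the orders: they are even (or `0`), and constant along odd labels -/
structure Ord {S : Type} (M : CoxeterMatrix S) (p : S → ℕ) : Prop where
  even : ∀ s, Even (p s)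
  odd : ∀ s t, Odd (M s t) → p s = p t

section orders

variable {S W : Type} [Group W] {M : CoxeterMatrix S} (cs : CoxeterSystem M W) {p : S → ℕ}

open Classical in
/-- the sign -/
noncomputable def sgnf (p : S → ℕ) (v : ℕ) (s : S) : ℤˣ := if p s = v then -1 else 1

theorem sgnf_lift (hp : Ord M p) (v : ℕ) : M.IsLiftable (sgnf p v) := by
  intro s t
  unfold sgnf
  by_cases hs : p s = v
  · by_cases ht : p t = v
    · simp [hs, ht]
    · have h1 : Even (M s t) := by
        by_contra h
        rw [Nat.not_even_iff_odd] at h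
        exact ht ((hp.odd s t h).symm.trans hs)
      simp [hs, ht, h1]
  · by_cases ht : p t = v
    · have h1 : Even (M s t) := by
        by_contra h
        rw [Nat.not_even_iff_odd] at h
        exact hs ((hp.odd s t h).trans ht)
      simp [hs, ht, h1]
    · simp [hs, ht]

theorem conj_eq {y : W} {i s : S} (h : geo cs y (ee i) = ee s) :
    y * cs.simple i = cs.simple s * y := by
  apply geo_injective cs
  apply LinearMap.ext
  intro v
  rw [map_mul, map_mul, Module.End.mul_apply, Module.End.mul_apply, geo_simple, geo_simple,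
    sg_apply, sg_apply, map_sub, map_smul, h]
  congr 2
  rw [← bil_ee_left, ← bil_ee_left, ← h, bil_geo]

include cs in
/-- the orders of conjugate generators are equal -/
theorem ord_eq (hp : Ord M p) {y : W} {i s : S} (h : geo cs y (ee i) = ee s) : p i = p s := by
  have h1 := conj_eq cs h
  have h2 := congrArg (cs.lift ⟨sgnf p (p s), sgnf_lift hp (p s)⟩) h1
  rw [map_mul, map_mul, CoxeterSystem.lift_apply_simple, CoxeterSystem.lift_apply_simple,
    mul_comm (sgnf p (p s) s)] at h2
  have h3 := mul_left_cancel h2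
  unfold sgnf at h3
  by_contra hne
  rw [if_neg hne, if_pos rfl] at h3
  exact absurd h3 (by decide)

end orders

section homs

variable {S T W A : Type} [Group W] [Group A] {M : CoxeterMatrix S} (cs : CoxeterSystem M W)
  {p : S → ℕ} {ι : T → S} (hι : Function.Injective ι) {g : T → A}

include hι in
theorem sig_pow_loop {s : S} {y : Mr cs ι} {t : T} (h : geo cs y.1 (ee (ι t)) = ee s) (k : ℕ) :
    ((sig cs ι g s) ^ k).s y = g t ^ k ∧ ((sig cs ι g s) ^ k).p y = y := by
  induction k with
  | zero => simp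
  | succ k ih =>
    have h1 := sig_loop hι (g := g) h
    rw [pow_succ', pow_succ']
    constructor
    · show (sig cs ι g s).s (((sig cs ι g s) ^ k).p y) * ((sig cs ι g s) ^ k).s y = _
      rw [ih.2, ih.1, h1.1]
    · show (sig cs ι g s).p (((sig cs ι g s) ^ k).p y) = _
      rw [ih.2, h1.2]

theorem sig_pow_move {s : S} {y : Mr cs ι} (h : ¬ ∃ t, geo cs y.1 (ee (ι t)) = ee s) (k : ℕ) :
    ((sig cs ι g s) ^ (k + k)).s y = 1 ∧ ((sig cs ι g s) ^ (k + k)).p y = y := by
  have h1 := sig_move (g := g) h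
  have h2 : ¬ ∃ t, geo cs ((sig cs ι g s).p y).1 (ee (ι t)) = ee s := by
    rw [h1.2]
    exact Mr_back y.2
  have h3 := sig_move (g := g) h2
  have h4 : (sig cs ι g s).p ((sig cs ι g s).p y) = y := pmf_invol s y
  induction k with
  | zero => simp
  | succ k ih =>
    have h5 : k + 1 + (k + 1) = (k + k) + 1 + 1 := by ring
    rw [h5, pow_succ', pow_succ']
    constructor
    · show (sig cs ι g s).s ((sig cs ι g s).p (((sig cs ι g s) ^ (k + k)).p y)) *
        ((sig cs ι g s).s (((sig cs ι g s) ^ (k + k)).p y) * ((sig cs ι g s) ^ (k + k)).s y) = _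
      rw [ih.2, ih.1, h1.1, h3.1, one_mul, one_mul]
    · show (sig cs ι g s).p ((sig cs ι g s).p (((sig cs ι g s) ^ (k + k)).p y)) = _
      rw [ih.2, h4]

include hι in
theorem sig_pow (hp : Ord M p) (hg : ∀ t, g t ^ p (ι t) = 1) (s : S) :
    (sig cs ι g s) ^ p s = 1 := by
  have main : ∀ y : Mr cs ι, ((sig cs ι g s) ^ p s).s y = 1 ∧ ((sig cs ι g s) ^ p s).p y = y := by
    intro y
    by_cases h : ∃ t, geo cs y.1 (ee (ι t)) = ee s
    · obtain ⟨t, ht⟩ := h
      have h1 := sig_pow_loop cs hι (g := g) ht (p s)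
      refine ⟨?_, h1.2⟩
      rw [h1.1, ← ord_eq cs hp ht, hg]
    · obtain ⟨k, hk⟩ := hp.even s
      rw [hk]
      exact sig_pow_move cs h k
  apply Wr.ext
  · funext y
    exact (main y).1
  · apply Equiv.ext
    intro y
    exact (main y).2

/-- the induced homomorphism -/
noncomputable def Phi (hι : Function.Injective ι) (hp : Ord M p)
    (hg : ∀ u v, M (ι u) (ι v) ≠ 0 → alr (g u) (g v) (M (ι u) (ι v)) =
      alr (g v) (g u) (M (ι u) (ι v))) (hg' : ∀ t, g t ^ p (ι t) = 1) :
    Shep M p →* Wr (Mr cs ι) A :=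
  PresentedGroup.toGroup (f := sig cs ι g) (by
    rintro r (⟨s, t, h0, rfl⟩ | ⟨s, rfl⟩)
    · rw [map_mul, map_inv, map_alr, map_alr, FreeGroup.lift_apply_of, FreeGroup.lift_apply_of,
        sig_braid hι hg h0, mul_inv_cancel]
    · rw [map_pow, FreeGroup.lift_apply_of, sig_pow cs hι hp hg'])

theorem Phi_of (hι : Function.Injective ι) (hp : Ord M p)
    (hg : ∀ u v, M (ι u) (ι v) ≠ 0 → alr (g u) (g v) (M (ι u) (ι v)) =
      alr (g v) (g u) (M (ι u) (ι v))) (hg' : ∀ t, g t ^ p (ι t) = 1) (s : S) :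
    Phi cs hι hp hg hg' (PresentedGroup.of s) = sig cs ι g s := by
  unfold Phi
  exact PresentedGroup.toGroup.of _

/-- the homomorphism to the Coxeter group -/
noncomputable def toC (hp : Ord M p) : Shep M p →* W :=
  PresentedGroup.toGroup (f := cs.simple) (by
    rintro r (⟨s, t, h0, rfl⟩ | ⟨s, rfl⟩)
    · rw [map_mul, map_inv, map_alr, map_alr, FreeGroup.lift_apply_of, FreeGroup.lift_apply_of,
        cox_braid, mul_inv_cancel]
    · obtain ⟨k, hk⟩ := hp.even s
      rw [map_pow, FreeGroup.lift_apply_of, hk, ← two_mul, pow_mul, cs.simple_sq, one_pow])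

theorem toC_of (hp : Ord M p) (s : S) : toC cs hp (PresentedGroup.of s) = cs.simple s :=
  PresentedGroup.toGroup.of _

end homs

/-- the restriction of a Coxeter matrix -/
def cm {S T : Type} (M : CoxeterMatrix S) (ι : T → S) (hι : Function.Injective ι) :
    CoxeterMatrix T where
  M u v := M (ι u) (ι v)
  isSymm := by
    ext u v
    exact M.symmetric _ _
  diagonal u := M.diagonal _
  off_diagonal u v h := M.off_diagonal _ _ fun h1 => h (hι h1)

theorem cm_apply {S T : Type} (M : CoxeterMatrix S) (ι : T → S) (hι : Function.Injective ι)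
    (u v : T) : cm M ι hι u v = M (ι u) (ι v) := rfl

section par

variable {S T W : Type} [Group W] {M : CoxeterMatrix S} (cs : CoxeterSystem M W)
  {p : S → ℕ} {ι : T → S} (hι : Function.Injective ι)

theorem of_braid {s t : S} (h : M s t ≠ 0) :
    alr (PresentedGroup.of s : Shep M p) (PresentedGroup.of t) (M s t) =
      alr (PresentedGroup.of t) (PresentedGroup.of s) (M s t) := by
  have h1 := PresentedGroup.mk_eq_mk_of_mul_inv_mem (rels := rels M p)
    (x := alr (FreeGroup.of s) (FreeGroup.of t) (M s t))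
    (y := alr (FreeGroup.of t) (FreeGroup.of s) (M s t)) (Or.inl ⟨s, t, h, rfl⟩)
  rw [map_alr, map_alr] at h1
  exact h1

theorem of_pow (s : S) : (PresentedGroup.of s : Shep M p) ^ p s = 1 := by
  have h1 := PresentedGroup.one_of_mem (rels := rels M p) (x := FreeGroup.of s ^ p s)
    (Or.inr ⟨s, rfl⟩)
  rw [map_pow] at h1
  exact h1

/-- homomorphisms of Shephard groups -/
theorem hom_ex {H : Type} [Group H] (f : S → H)
    (hf : ∀ s t, M s t ≠ 0 → alr (f s) (f t) (M s t) = alr (f t) (f s) (M s t))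
    (hf' : ∀ s, f s ^ p s = 1) : ∃ φ : Shep M p →* H, ∀ s, φ (PresentedGroup.of s) = f s :=
  ⟨PresentedGroup.toGroup (f := f) (by
    rintro r (⟨s, t, h0, rfl⟩ | ⟨s, rfl⟩)
    · rw [map_mul, map_inv, map_alr, map_alr, FreeGroup.lift_apply_of, FreeGroup.lift_apply_of,
        hf s t h0, mul_inv_cancel]
    · rw [map_pow, FreeGroup.lift_apply_of, hf']), fun s => PresentedGroup.toGroup.of _⟩

/-- the inclusion of the parabolic subgroup -/
noncomputable def inc (M : CoxeterMatrix S) (p : S → ℕ) (hι : Function.Injective ι) :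
    Shep (cm M ι hι) (fun t => p (ι t)) →* Shep M p :=
  PresentedGroup.toGroup (f := fun t => (PresentedGroup.of (ι t) : Shep M p)) (by
    rintro r (⟨s, t, h0, rfl⟩ | ⟨s, rfl⟩)
    · have h1 := of_braid (p := p) (M := M) (s := ι s) (t := ι t) h0
      rw [map_mul, map_inv, map_alr, map_alr, FreeGroup.lift_apply_of, FreeGroup.lift_apply_of]
      exact mul_inv_eq_one.2 h1
    · rw [map_pow, FreeGroup.lift_apply_of, of_pow])

theorem inc_of (t : T) : inc M p hι (PresentedGroup.of t) = PresentedGroup.of (ι t) :=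
  PresentedGroup.toGroup.of _

theorem Ord.res (hp : Ord M p) : Ord (cm M ι hι) (fun t => p (ι t)) :=
  ⟨fun _ => hp.even _, fun _ _ h => hp.odd _ _ h⟩

/-- the homomorphism to the wreath product with the parabolic group -/
noncomputable def Ph (hp : Ord M p) :
    Shep M p →* Wr (Mr cs ι) (Shep (cm M ι hι) fun t => p (ι t)) :=
  Phi cs (g := fun t => PresentedGroup.of t) hι hp (fun _ _ h => of_braid h) fun _ => of_pow _

theorem Ph_of (hp : Ord M p) (s : S) :
    Ph cs hι hp (PresentedGroup.of s) = sig cs ι (fun t => PresentedGroup.of t) s :=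
  Phi_of cs hι hp _ _ s

/-- the base point -/
def bp (cs : CoxeterSystem M W) (ι : T → S) : Mr cs ι := ⟨1, fun t => by
  rw [map_one, Module.End.one_apply]
  exact ee_nonneg _⟩

/-- induction -/
theorem sh_ind {P : Shep M p → Prop} (h1 : P 1) (hm : ∀ x y, P x → P y → P (x * y))
    (hi : ∀ x, P x → P x⁻¹) (hs : ∀ s, P (PresentedGroup.of s)) (x : Shep M p) : P x := by
  have hx : x ∈ Subgroup.closure (Set.range (PresentedGroup.of (rels := rels M p))) := by
    rw [PresentedGroup.closure_range_of]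
    trivial
  induction hx using Subgroup.closure_induction with
  | mem x hx =>
    obtain ⟨s, rfl⟩ := hx
    exact hs s
  | one => exact h1
  | mul x y _ _ ihx ihy => exact hm x y ihx ihy
  | inv x _ ih => exact hi x ih

/-- **the retraction property** -/
theorem Ph_inc (hp : Ord M p) (a : Shep (cm M ι hι) fun t => p (ι t)) :
    (Ph cs hι hp (inc M p hι a)).s (bp cs ι) = a ∧
      (Ph cs hι hp (inc M p hι a)).p (bp cs ι) = bp cs ι := by
  refine sh_ind (P := fun a => (Ph cs hι hp (inc M p hι a)).s (bp cs ι) = a ∧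
      (Ph cs hι hp (inc M p hι a)).p (bp cs ι) = bp cs ι) ?_ ?_ ?_ ?_ a
  · simp
  · rintro x y ⟨hx, hx'⟩ ⟨hy, hy'⟩
    rw [map_mul, map_mul]
    constructor
    · show (Ph cs hι hp (inc M p hι x)).s ((Ph cs hι hp (inc M p hι y)).p (bp cs ι)) *
        (Ph cs hι hp (inc M p hι y)).s (bp cs ι) = _
      rw [hy', hx, hy]
    · show (Ph cs hι hp (inc M p hι x)).p ((Ph cs hι hp (inc M p hι y)).p (bp cs ι)) = _
      rw [hy', hx']
  · rintro x ⟨hx, hx'⟩
    have h1 : (Ph cs hι hp (inc M p hι x)).p⁻¹ (bp cs ι) = bp cs ι := by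
      rw [Equiv.Perm.inv_eq_iff_eq]
      exact hx'.symm
    rw [map_inv, map_inv]
    constructor
    · show ((Ph cs hι hp (inc M p hι x)).s ((Ph cs hι hp (inc M p hι x)).p⁻¹ (bp cs ι)))⁻¹ = _
      rw [h1, hx]
    · exact h1
  · intro t
    rw [inc_of, Ph_of]
    have h1 : geo cs (bp cs ι).1 (ee (ι t)) = ee (ι t) := by
      show geo cs 1 (ee (ι t)) = ee (ι t)
      rw [map_one, Module.End.one_apply]
    exact sig_loop hι h1

theorem inc_injective (hp : Ord M p) : Function.Injective (inc M p hι) := by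
  rw [injective_iff_map_eq_one]
  intro a ha
  have h1 := (Ph_inc M.toCoxeterSystem hι hp a).1
  rw [ha, map_one] at h1
  exact h1.symm

/-- the parabolic part -/
noncomputable def piT (hp : Ord M p) : (Shep (cm M ι hι) fun t => p (ι t)) →* W :=
  (toC cs hp).comp (inc M p hι)

/-- the position in the Coxeter group -/
theorem track (hp : Ord M p) (w : Shep M p) (y : Mr cs ι) :
    ((Ph cs hι hp w).p y).1 * piT cs hι hp ((Ph cs hι hp w).s y) = toC cs hp w * y.1 := by
  refine sh_ind (P := fun w => ∀ y : Mr cs ι, ((Ph cs hι hp w).p y).1 *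
    piT cs hι hp ((Ph cs hι hp w).s y) = toC cs hp w * y.1) ?_ ?_ ?_ ?_ w y
  · intro y
    simp
  · intro w w' hw hw' y
    rw [map_mul, map_mul]
    show ((Ph cs hι hp w).p ((Ph cs hι hp w').p y)).1 * piT cs hι hp
      ((Ph cs hι hp w).s ((Ph cs hι hp w').p y) * (Ph cs hι hp w').s y) = _
    rw [map_mul, ← mul_assoc, hw, mul_assoc, hw', mul_assoc]
  · intro w hw y
    obtain ⟨z, hz⟩ : ∃ z, z = (Ph cs hι hp w).p⁻¹ y := ⟨_, rfl⟩
    have hz' : (Ph cs hι hp w).p z = y := by rw [hz]; exact Equiv.apply_symm_apply _ _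
    have h1 := hw z
    rw [hz'] at h1
    rw [map_inv, map_inv]
    show ((Ph cs hι hp w).p⁻¹ y).1 * piT cs hι hp ((Ph cs hι hp w).s ((Ph cs hι hp w).p⁻¹ y))⁻¹ = _
    rw [← hz, map_inv, mul_inv_eq_iff_eq_mul, mul_assoc, h1, inv_mul_cancel_left]
  · intro s y
    rw [Ph_of, toC_of]
    by_cases h : ∃ t, geo cs y.1 (ee (ι t)) = ee s
    · obtain ⟨t, ht⟩ := h
      have h1 := sig_loop hι (g := fun t => (PresentedGroup.of t :
        Shep (cm M ι hι) fun t => p (ι t))) ht
      rw [h1.1, h1.2, piT, MonoidHom.comp_apply, inc_of, toC_of]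
      exact conj_eq cs ht
    · have h1 := sig_move (g := fun t => (PresentedGroup.of t :
        Shep (cm M ι hι) fun t => p (ι t))) h
      rw [h1.1, h1.2, map_one, mul_one]

end par

end Pool.Agent.N509.SH
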