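import Pool.Agent.N509.SH.Def

set_option autoImplicit false

/-!
# The induced homomorphism: from the Shephard group to the wreath product of a parabolic group with
the permutations of its cosets
-/

namespace Pool.Agent.N509.SH

open Pool.Agent.R676.Cox
open Pool.Agent.Helper741 (qs cc qs_add_two qs_zero qs_one cc_symm cc_self qs_nonneg)
open Pool.Agent.Y462.SS (Wr)

section roots

variable {S W : Type} [Group W] {M : CoxeterMatrix S} (cs : CoxeterSystem M W)

/-- the roots of the plane of `s` and `t` -/
noncomputable def gam (M : CoxeterMatrix S) (s t : S) (k : ℕ) : S →₀ ℝ :=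
  qs (cc M s t) (k + 1) • ee s + qs (cc M s t) k • ee t

theorem geo_gam (k : ℕ) : ∀ s t : S, geo cs (alr (cs.simple s) (cs.simple t) k) (gam M s t k) =
    ee (if Even k then s else t) := by
  induction k with
  | zero =>
    intro s t
    simp [alr, gam]
  | succ k ih =>
    intro s t
    have h1 : sg M s (gam M s t (k + 1)) = gam M t s k := by
      rw [gam, gam, map_add, map_smul, map_smul, sg_ee_self, sg_ee, qs_add_two, cc_symm M t s]
      module
    rw [alr_succ', map_mul, Module.End.mul_apply, geo_simple, h1, ih]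
    by_cases h : Even k
    · simp [h, Nat.even_add_one]
    · simp [h, Nat.even_add_one]

/-- `γ'_k = γ_{m - 1 - k}` -/
theorem gam_symm {s t : S} (hst : s ≠ t) (h0 : M s t ≠ 0) {k : ℕ} (hk : k < M s t) :
    gam M t s k = gam M s t (M s t - 1 - k) := by
  have hs := Pool.Agent.Helper741.sin_pos_of_ne M hst h0
  have hm : (M s t : ℝ) ≠ 0 := by exact_mod_cast h0
  have key : ∀ j, j ≤ M s t → qs (cc M s t) (M s t - j) = qs (cc M s t) j := by
    intro j hj
    have h1 := Pool.Agent.Helper741.qs_sin (Real.pi / (M s t : ℝ)) (M s t - j)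
    have h2 := Pool.Agent.Helper741.qs_sin (Real.pi / (M s t : ℝ)) j
    have h3 : ((M s t - j : ℕ) : ℝ) * (Real.pi / (M s t : ℝ)) =
        Real.pi - j * (Real.pi / (M s t : ℝ)) := by
      rw [Nat.cast_sub hj]
      field_simp
    rw [h3, Real.sin_pi_sub, ← h2] at h1
    exact mul_right_cancel₀ hs.ne' h1
  have h1 : M s t - 1 - k + 1 = M s t - k := by omega
  have h2 : M s t - 1 - k = M s t - (k + 1) := by omega
  rw [gam, gam, h1, h2, key k hk.le, key (k + 1) hk, cc_symm M t s]
  exact add_comm _ _

theorem gam_PR {s t : S} (hst : s ≠ t) {k : ℕ} (hk : k < M s t) : PR cs (gam M s t k) := by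
  refine ⟨?_, ?_⟩
  · have h1 : gam M s t k = geo cs (alr (cs.simple s) (cs.simple t) k)⁻¹
        (ee (if Even k then s else t)) := by
      rw [← geo_gam cs k s t, geo_inv_apply]
    rw [h1]
    exact (isRt_ee cs _).geo _
  · exact add_nonneg (smul_nonneg (qs_nonneg M hst (Or.inr hk)) (ee_nonneg s))
      (smul_nonneg (qs_nonneg M hst (Or.inr hk.le)) (ee_nonneg t))

end roots

section labels

variable {S T W A : Type} [Group W] [Group A] {M : CoxeterMatrix S} (cs : CoxeterSystem M W)
  {ι : T → S} (hι : Function.Injective ι) (g : T → A)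

open Classical in
/-- the generators of the wreath product -/
noncomputable def sig (ι : T → S) (g : T → A) (s : S) : Wr (Mr cs ι) A where
  s y := if h : ∃ t, geo cs y.1 (ee (ι t)) = ee s then g h.choose else 1
  p := (pmf_invol (cs := cs) (ι := ι) s).toPerm

theorem ee_inj {i j : S} (h : (ee i : S →₀ ℝ) = ee j) : i = j := by
  classical
  have h1 := DFunLike.congr_fun h i
  by_contra hne
  rw [ee, Finsupp.single_eq_same, ee, Finsupp.single_apply, if_neg (Ne.symm hne)] at h1
  exact one_ne_zero h1

variable {cs g}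

include hι in
theorem sig_loop {s : S} {y : Mr cs ι} {t : T} (h : geo cs y.1 (ee (ι t)) = ee s) :
    (sig cs ι g s).s y = g t ∧ (sig cs ι g s).p y = y := by
  have hex : ∃ t, geo cs y.1 (ee (ι t)) = ee s := ⟨t, h⟩
  constructor
  · have h1 : (sig cs ι g s).s y = g hex.choose := dif_pos hex
    rw [h1]
    have h2 : geo cs y.1 (ee (ι hex.choose)) = geo cs y.1 (ee (ι t)) := hex.choose_spec.trans h.symm
    rw [hι (ee_inj (geo_injective_apply cs y.1 h2))]
  · exact pmf_loop hex

theorem sig_move {s : S} {y : Mr cs ι} (h : ¬ ∃ t, geo cs y.1 (ee (ι t)) = ee s) :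
    (sig cs ι g s).s y = 1 ∧ ((sig cs ι g s).p y).1 = cs.simple s * y.1 :=
  ⟨dif_neg h, pmf_move h⟩

variable (cs g)

/-- both generators loop -/
def Both (cs : CoxeterSystem M W) (ι : T → S) (s t : S) (y : W) : Prop :=
  (∃ u, geo cs y (ee (ι u)) = ee s) ∧ ∃ u, geo cs y (ee (ι u)) = ee t

variable {cs g}

theorem Both.symm {s t : S} {y : W} (h : Both cs ι s t y) : Both cs ι t s y := ⟨h.2, h.1⟩

/-- no loop in the first `k` steps -/
theorem no_loop {s t : S} {y : Mr cs ι} {k : ℕ}
    (h : ∀ j < k, ¬ ∃ u, geo cs y.1 (ee (ι u)) = gam M s t j) :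
    (alr (sig cs ι g s) (sig cs ι g t) k).s y = 1 ∧
      ((alr (sig cs ι g s) (sig cs ι g t) k).p y).1 =
        alr (cs.simple s) (cs.simple t) k * y.1 := by
  induction k with
  | zero => simp [alr]
  | succ k ih =>
    obtain ⟨h1, h2⟩ := ih fun j hj => h j (by omega)
    have h3 : ¬ ∃ u, geo cs ((alr (sig cs ι g s) (sig cs ι g t) k).p y).1 (ee (ι u)) =
        ee (if Even k then s else t) := by
      rintro ⟨u, hu⟩
      refine h k (by omega) ⟨u, ?_⟩
      rw [h2, ← geo_geo, ← geo_gam cs k s t] at hu
      exact geo_injective_apply cs _ hu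
    have h4 := sig_move (g := g) h3
    have h5 : (if Even k then sig cs ι g s else sig cs ι g t) =
        sig cs ι g (if Even k then s else t) := by split_ifs <;> rfl
    have h6 : (if Even k then cs.simple s else cs.simple t) =
        cs.simple (if Even k then s else t) := by split_ifs <;> rfl
    rw [alr_succ, alr_succ, h5, h6]
    constructor
    · show (sig cs ι g _).s ((alr (sig cs ι g s) (sig cs ι g t) k).p y) *
        (alr (sig cs ι g s) (sig cs ι g t) k).s y = 1
      rw [h4.1, h1, mul_one]
    · show ((sig cs ι g _).p ((alr (sig cs ι g s) (sig cs ι g t) k).p y)).1 = _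
      rw [h4.2, h2, mul_assoc]

include hι in
/-- both generators loop: the labels -/
theorem both_loop {s t : S} {y : Mr cs ι} {u v : T} (hu : geo cs y.1 (ee (ι u)) = ee s)
    (hv : geo cs y.1 (ee (ι v)) = ee t) (k : ℕ) :
    (alr (sig cs ι g s) (sig cs ι g t) k).s y = alr (g u) (g v) k ∧
      (alr (sig cs ι g s) (sig cs ι g t) k).p y = y := by
  induction k with
  | zero => simp [alr]
  | succ k ih =>
    obtain ⟨h1, h2⟩ := ih
    have hs := sig_loop hι (g := g) hu
    have ht := sig_loop hι (g := g) hv
    rw [alr_succ, alr_succ]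
    constructor
    · show (if Even k then sig cs ι g s else sig cs ι g t).s
        ((alr (sig cs ι g s) (sig cs ι g t) k).p y) * (alr (sig cs ι g s) (sig cs ι g t) k).s y = _
      rw [h1, h2]
      split_ifs
      · rw [hs.1]
      · rw [ht.1]
    · show (if Even k then sig cs ι g s else sig cs ι g t).p
        ((alr (sig cs ι g s) (sig cs ι g t) k).p y) = _
      rw [h2]
      split_ifs
      · exact hs.2
      · exact ht.2

include hι in
/-- one loop -/
theorem one_loop {s t : S} (hst : s ≠ t) {y : Mr cs ι} (hB : ¬ Both cs ι s t y.1)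
    (h : ∃ k < M s t, ∃ u, geo cs y.1 (ee (ι u)) = gam M s t k) :
    ∃ u, (∃ k < M s t, geo cs y.1 (ee (ι u)) = gam M s t k) ∧
      (alr (sig cs ι g s) (sig cs ι g t) (M s t)).s y = g u ∧
      ((alr (sig cs ι g s) (sig cs ι g t) (M s t)).p y).1 =
        alr (cs.simple s) (cs.simple t) (M s t) * y.1 * cs.simple (ι u) := by
  classical
  -- the first loop
  obtain ⟨k, ⟨hk, u, hu⟩, hmin⟩ : ∃ k, (k < M s t ∧ ∃ u, geo cs y.1 (ee (ι u)) = gam M s t k) ∧
      ∀ j < k, ¬ (j < M s t ∧ ∃ u, geo cs y.1 (ee (ι u)) = gam M s t j) := by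
    obtain ⟨k, hk⟩ := h
    have hex : ∃ k, k < M s t ∧ ∃ u, geo cs y.1 (ee (ι u)) = gam M s t k := ⟨k, hk⟩
    exact ⟨Nat.find hex, Nat.find_spec hex, fun j hj => Nat.find_min hex hj⟩
  refine ⟨u, ⟨k, hk, hu⟩, ?_⟩
  have hk0 := no_loop (g := g) (cs := cs) (ι := ι) (s := s) (t := t) (y := y) (k := k)
    fun j hj hj' => hmin j hj ⟨by omega, hj'⟩
  have hif : ∀ j : ℕ, (if Even j then sig cs ι g s else sig cs ι g t) =
      sig cs ι g (if Even j then s else t) := fun j => by split_ifs <;> rfl
  have hif' : ∀ j : ℕ, (if Even j then cs.simple s else cs.simple t) =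
      cs.simple (if Even j then s else t) := fun j => by split_ifs <;> rfl
  -- the reflection
  have href : cs.simple (if Even k then s else t) * (alr (cs.simple s) (cs.simple t) k * y.1) =
      alr (cs.simple s) (cs.simple t) k * y.1 * cs.simple (ι u) := by
    have h1 : geo cs (alr (cs.simple s) (cs.simple t) k * y.1) (ee (ι u)) =
        ee (if Even k then s else t) := by
      rw [← geo_geo, hu, geo_gam]
    apply geo_injective cs
    apply LinearMap.ext
    intro v
    rw [map_mul, map_mul (geo cs) (alr (cs.simple s) (cs.simple t) k * y.1), Module.End.mul_apply,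
      Module.End.mul_apply, geo_simple, geo_simple, sg_apply, sg_apply, map_sub, map_smul, h1]
    congr 2
    rw [← bil_ee_left, ← bil_ee_left, ← h1, bil_geo]
  -- after the loop
  have key : ∀ j, k < j → j ≤ M s t → (alr (sig cs ι g s) (sig cs ι g t) j).s y = g u ∧
      ((alr (sig cs ι g s) (sig cs ι g t) j).p y).1 =
        alr (cs.simple s) (cs.simple t) j * y.1 * cs.simple (ι u) := by
    intro j hj
    induction j, hj using Nat.le_induction with
    | base =>
      intro _
      have h1 : geo cs ((alr (sig cs ι g s) (sig cs ι g t) k).p y).1 (ee (ι u)) =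
          ee (if Even k then s else t) := by
        rw [hk0.2, ← geo_geo, hu, geo_gam]
      have h2 := sig_loop hι (g := g) h1
      rw [Nat.succ_eq_add_one, alr_succ, alr_succ, hif, hif']
      constructor
      · show (sig cs ι g _).s ((alr (sig cs ι g s) (sig cs ι g t) k).p y) *
          (alr (sig cs ι g s) (sig cs ι g t) k).s y = _
        rw [h2.1, hk0.1, mul_one]
      · show ((sig cs ι g _).p ((alr (sig cs ι g s) (sig cs ι g t) k).p y)).1 = _
        rw [h2.2, hk0.2, mul_assoc (cs.simple _), href, mul_assoc _ (cs.simple _),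
          cs.simple_mul_simple_self, mul_one]
    | succ j hj ih =>
      intro hjm
      obtain ⟨h1, h2⟩ := ih (by omega)
      have hkj : k < j := hj
      have h3 : ¬ ∃ v, geo cs ((alr (sig cs ι g s) (sig cs ι g t) j).p y).1 (ee (ι v)) =
          ee (if Even j then s else t) := by
        rintro ⟨v, hv⟩
        rw [h2, mul_assoc, ← geo_geo, ← geo_gam cs j s t] at hv
        have hv1 := geo_injective_apply cs _ hv
        rw [← geo_geo, geo_simple] at hv1
        have hne : gam M s t k ≠ gam M s t j := by
          intro he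
          rw [← he, ← hu] at hv1
          have h4 := geo_injective_apply cs _ hv1
          have h5 : (ee (ι v) : S →₀ ℝ) = - ee (ι u) := by
            rw [← sg_ee_self M, ← h4, sg_sg]
          have h6 := ee_nonneg (B := S) (ι v)
          rw [h5] at h6
          exact (isRt_ee cs (ι u)).not_both (ee_nonneg _) (neg_nonneg.1 h6)
        have hsp : Sp ι (sg M (ι u) (ee (ι v))) := by
          rw [sg_ee]
          exact Sp_add (Sp_ee v) (Sp_smul _ (Sp_ee u))
        exact hB (two_roots y.2 (Sp_ee u) hsp hu hv1 (gam_PR cs hst hk) (gam_PR cs hst (by omega))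
          hne)
      have h4 := sig_move (g := g) h3
      rw [alr_succ, alr_succ, hif, hif']
      constructor
      · show (sig cs ι g _).s ((alr (sig cs ι g s) (sig cs ι g t) j).p y) *
          (alr (sig cs ι g s) (sig cs ι g t) j).s y = _
        rw [h4.1, h1, one_mul]
      · show ((sig cs ι g _).p ((alr (sig cs ι g s) (sig cs ι g t) j).p y)).1 = _
        rw [h4.2, h2, mul_assoc, mul_assoc, mul_assoc]
  exact key _ hk le_rfl

/-- the braid relation in the Coxeter group -/
theorem cox_braid (s t : S) : alr (cs.simple s) (cs.simple t) (M s t) =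
    alr (cs.simple t) (cs.simple s) (M s t) := by
  have h1 : ∀ (k : ℕ) (s t : S), alr (cs.simple s) (cs.simple t) k =
      cs.wordProd (CoxeterSystem.alternatingWord t s k) := by
    intro k
    induction k with
    | zero => intro s t; simp [alr, CoxeterSystem.alternatingWord]
    | succ k ih =>
      intro s t
      rw [alr_succ', ih, CoxeterSystem.alternatingWord_succ, cs.wordProd_concat]
  rw [h1, h1]
  have h2 := cs.wordProd_braidWord_eq t s
  unfold CoxeterSystem.braidWord at h2
  rw [M.symmetric t s] at h2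
  exact h2

/-- equal labels from equal planes -/
theorem label_eq {s t s' t' : S} {y : W} (hst : s ≠ t) (h0 : M s t ≠ 0)
    (hs : geo cs y (ee s') = ee s) (ht : geo cs y (ee t') = ee t) : M s' t' = M s t := by
  have h1 : bil M (ee s') (ee t') = bil M (ee s) (ee t) := by
    rw [← hs, ← ht, bil_geo]
  rw [bil_ee_left, bil_ee_left, coroot_ee, coroot_ee] at h1
  have h2 : cc M s' t' = cc M s t := by linarith
  have hne : s' ≠ t' := by
    rintro rfl
    exact hst (ee_inj (hs.symm.trans ht))
  have hm2 : 2 ≤ M s t := Pool.Agent.Helper741.two_le_of_ne M hst h0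
  have hm2' : (2 : ℝ) ≤ (M s t : ℝ) := by exact_mod_cast hm2
  have hm0 : M s' t' ≠ 0 := by
    intro h3
    rw [Pool.Agent.Helper741.cc_of_zero M h3] at h2
    have h4 := Pool.Agent.Helper741.sin_pos_of_ne M hst h0
    have h5 : Real.sin (Real.pi / (M s t : ℝ)) ^ 2 + cc M s t ^ 2 = 1 :=
      Real.sin_sq_add_cos_sq _
    rw [← h2] at h5
    nlinarith
  have hn2 : 2 ≤ M s' t' := Pool.Agent.Helper741.two_le_of_ne M hne hm0
  have hn2' : (2 : ℝ) ≤ (M s' t' : ℝ) := by exact_mod_cast hn2
  have h6 : Real.pi / (M s' t' : ℝ) = Real.pi / (M s t : ℝ) := by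
    refine Real.injOn_cos ?_ ?_ h2
    · refine ⟨by positivity, ?_⟩
      exact div_le_self Real.pi_pos.le (by linarith)
    · refine ⟨by positivity, ?_⟩
      exact div_le_self Real.pi_pos.le (by linarith)
  have h7 : (M s' t' : ℝ) = (M s t : ℝ) := by
    rw [div_eq_div_iff (by positivity) (by positivity)] at h6
    exact (mul_left_cancel₀ Real.pi_ne_zero h6).symm
  exact_mod_cast h7

include hι in
/-- the braid relations in the wreath product -/
theorem sig_braid (hg : ∀ u v, M (ι u) (ι v) ≠ 0 → alr (g u) (g v) (M (ι u) (ι v)) =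
      alr (g v) (g u) (M (ι u) (ι v))) {s t : S} (h0 : M s t ≠ 0) :
    alr (sig cs ι g s) (sig cs ι g t) (M s t) = alr (sig cs ι g t) (sig cs ι g s) (M s t) := by
  by_cases hst : s = t
  · rw [hst]
  have hts : t ≠ s := Ne.symm hst
  have hMs : M t s = M s t := M.symmetric t s
  have main : ∀ y : Mr cs ι,
      (alr (sig cs ι g s) (sig cs ι g t) (M s t)).s y =
        (alr (sig cs ι g t) (sig cs ι g s) (M s t)).s y ∧
      (alr (sig cs ι g s) (sig cs ι g t) (M s t)).p y =
        (alr (sig cs ι g t) (sig cs ι g s) (M s t)).p y := by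
    intro y
    by_cases hB : Both cs ι s t y.1
    · obtain ⟨⟨u, hu⟩, v, hv⟩ := hB
      have h1 := both_loop hι (g := g) hu hv (M s t)
      have h2 := both_loop hι (g := g) hv hu (M s t)
      have h3 : M (ι u) (ι v) = M s t := label_eq hst h0 hu hv
      refine ⟨?_, h1.2.trans h2.2.symm⟩
      rw [h1.1, h2.1]
      have h4 := hg u v (by rw [h3]; exact h0)
      rw [h3] at h4
      exact h4
    · by_cases hL : ∃ k < M s t, ∃ u, geo cs y.1 (ee (ι u)) = gam M s t k
      · have hL' : ∃ k < M t s, ∃ u, geo cs y.1 (ee (ι u)) = gam M t s k := by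
          obtain ⟨k, hk, u, hu⟩ := hL
          refine ⟨M s t - 1 - k, by omega, u, ?_⟩
          rw [hu, gam_symm hst h0 (by omega)]
          congr 1
          omega
        obtain ⟨u, ⟨k, hk, hu⟩, h1, h2⟩ := one_loop hι (g := g) hst hB hL
        obtain ⟨v, ⟨j, hj, hv⟩, h3, h4⟩ := one_loop hι (g := g) hts (fun h => hB h.symm) hL'
        rw [hMs] at h3 h4 hj
        have huv : u = v := by
          by_contra hne
          apply hB
          rw [gam_symm hst h0 hj] at hv
          refine two_roots y.2 (Sp_ee u) (Sp_ee v) hu hv (gam_PR cs hst hk)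
            (gam_PR cs hst (by omega)) ?_
          intro he
          have h5 : geo cs y.1 (ee (ι u)) = geo cs y.1 (ee (ι v)) := by
            rw [hu, hv]
            exact he
          exact hne (hι (ee_inj (geo_injective_apply cs _ h5)))
        subst huv
        refine ⟨h1.trans h3.symm, ?_⟩
        apply Subtype.ext
        rw [h2, h4, cox_braid]
      · have hL1 : ∀ k < M s t, ¬ ∃ u, geo cs y.1 (ee (ι u)) = gam M s t k :=
          fun k hk h => hL ⟨k, hk, h⟩
        have hL2 : ∀ k < M s t, ¬ ∃ u, geo cs y.1 (ee (ι u)) = gam M t s k := by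
          rintro k hk ⟨u, hu⟩
          rw [gam_symm hst h0 hk] at hu
          exact hL ⟨_, by omega, u, hu⟩
        have h1 := no_loop (g := g) hL1
        have h2 := no_loop (g := g) hL2
        refine ⟨h1.1.trans h2.1.symm, ?_⟩
        apply Subtype.ext
        rw [h1.2, h2.2, cox_braid]
  apply Wr.ext
  · funext y
    exact (main y).1
  · apply Equiv.ext
    intro y
    exact (main y).2

end labels

end Pool.Agent.N509.SH
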