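import Pool.Agent.N509.SH.Fam
import Pool.Agent.Y417.FJ.Am
import Pool.Agent.Y961.FJ.Perm
import Pool.Agent.Y529.FJ.Ext

set_option autoImplicit false

/-!
# Shephard groups and their parabolic subgroups without infinite labels
-/

namespace Pool.Agent.N509.SH

open Pool.Agent.R676.Cox
open Pool.Agent.Y462.SS (Wr)
open Pool.Agent.Y110.FJ (ClosedE Amg S_AM)

theorem am : S_AM := Pool.Agent.Y417.FJ.t_am (Pool.Agent.Y961.FJ.t_perm Pool.Agent.Y529.FJ.t_ext)

section inc

variable {S T : Type} (M : CoxeterMatrix S) (p : S → ℕ) {ι : T → S} (hι : Function.Injective ι)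

theorem inc_range : (inc M p hι).range =
    Subgroup.closure (Set.range fun t => (PresentedGroup.of (ι t) : Shep M p)) := by
  apply le_antisymm
  · rintro _ ⟨a, rfl⟩
    refine sh_ind (P := fun a => inc M p hι a ∈ Subgroup.closure
      (Set.range fun t => (PresentedGroup.of (ι t) : Shep M p))) ?_ ?_ ?_ ?_ a
    · rw [map_one]
      exact one_mem _
    · intro x y hx hy
      rw [map_mul]
      exact mul_mem hx hy
    · intro x hx
      rw [map_inv]
      exact inv_mem hx
    · intro t
      rw [inc_of]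
      exact Subgroup.subset_closure ⟨t, rfl⟩
  · rw [Subgroup.closure_le]
    rintro _ ⟨t, rfl⟩
    exact ⟨PresentedGroup.of t, inc_of hι t⟩

theorem of_mem (t : T) : (PresentedGroup.of (ι t) : Shep M p) ∈ (inc M p hι).range :=
  ⟨PresentedGroup.of t, inc_of hι t⟩

theorem range_le {T' : Type} {ι' : T' → S} (hι' : Function.Injective ι')
    (h : ∀ t, ∃ t', ι' t' = ι t) : (inc M p hι).range ≤ (inc M p hι').range := by
  rw [inc_range, inc_range]
  refine Subgroup.closure_mono ?_
  rintro _ ⟨t, rfl⟩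
  obtain ⟨t', ht'⟩ := h t
  exact ⟨t', by simp only [ht']⟩

theorem sub_braid (B : Subgroup (Shep M p)) {s t : S} (hs : PresentedGroup.of s ∈ B)
    (ht : PresentedGroup.of t ∈ B) (h0 : M s t ≠ 0) {H : Type} [Group H] (f : B →* H) :
    alr (f ⟨_, hs⟩) (f ⟨_, ht⟩) (M s t) = alr (f ⟨_, ht⟩) (f ⟨_, hs⟩) (M s t) := by
  rw [← map_alr, ← map_alr]
  congr 1
  apply Subtype.ext
  have h1 := map_alr B.subtype ⟨_, hs⟩ ⟨_, ht⟩ (M s t)
  have h2 := map_alr B.subtype ⟨_, ht⟩ ⟨_, hs⟩ (M s t)
  exact h1.trans ((of_braid h0).trans h2.symm)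

theorem sub_pow (B : Subgroup (Shep M p)) {s : S} (hs : PresentedGroup.of s ∈ B)
    {H : Type} [Group H] (f : B →* H) : f ⟨_, hs⟩ ^ p s = 1 := by
  rw [← map_pow]
  have h1 : (⟨PresentedGroup.of s, hs⟩ : B) ^ p s = 1 := by
    apply Subtype.ext
    exact of_pow s
  rw [h1, map_one]

end inc

section step

variable {S : Type} (M : CoxeterMatrix S) (p : S → ℕ)

theorem inj1 (P : S → Prop) : Function.Injective (fun s : {s // P s} => (s : S)) :=
  Subtype.val_injective

theorem amg {a b : S} (hab : M a b = 0) :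
    Amg (inc M p (inj1 fun s => s ≠ b)).range (inc M p (inj1 fun s => s ≠ a)).range
      (inc M p (inj1 fun s => s ≠ a ∧ s ≠ b)).range := by
  classical
  have hne : a ≠ b := by
    rintro rfl
    rw [M.diagonal] at hab
    exact one_ne_zero hab
  have hA : ∀ s, s ≠ b → (PresentedGroup.of s : Shep M p) ∈ (inc M p (inj1 fun s => s ≠ b)).range :=
    fun s hs => of_mem M p (inj1 fun s => s ≠ b) ⟨s, hs⟩
  have hB : ∀ s, s ≠ a → (PresentedGroup.of s : Shep M p) ∈ (inc M p (inj1 fun s => s ≠ a)).range :=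
    fun s hs => of_mem M p (inj1 fun s => s ≠ a) ⟨s, hs⟩
  have hK : ∀ s, s ≠ a → s ≠ b → (PresentedGroup.of s : Shep M p) ∈
      (inc M p (inj1 fun s => s ≠ a ∧ s ≠ b)).range :=
    fun s hs hs' => of_mem M p (inj1 fun s => s ≠ a ∧ s ≠ b) ⟨s, hs, hs'⟩
  refine ⟨range_le M p _ _ fun t => ⟨⟨t.1, t.2.2⟩, rfl⟩,
    range_le M p _ _ fun t => ⟨⟨t.1, t.2.1⟩, rfl⟩, ?_, ?_⟩
  · rw [eq_top_iff]
    intro x _
    refine sh_ind (P := fun x => x ∈ (inc M p (inj1 fun s => s ≠ b)).range ⊔
      (inc M p (inj1 fun s => s ≠ a)).range) (one_mem _) (fun _ _ => mul_mem) (fun _ => inv_mem)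
      (fun s => ?_) x
    by_cases h : s = b
    · exact Subgroup.mem_sup_right (hB s fun h1 => hne (h1.symm.trans h))
    · exact Subgroup.mem_sup_left (hA s h)
  · intro H _ f g hfg
    obtain ⟨k, hk⟩ : ∃ k : S → H, ∀ s, k s = if h : s = b then
        g ⟨_, hB s fun h1 => hne (h1.symm.trans h)⟩ else f ⟨_, hA s h⟩ := ⟨_, fun _ => rfl⟩
    have hk1 : ∀ s (h : s ≠ b), k s = f ⟨_, hA s h⟩ := fun s h => by rw [hk, dif_neg h]
    have hk2 : ∀ s (h : s ≠ a), k s = g ⟨_, hB s h⟩ := fun s h => by
      by_cases h1 : s = b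
      · rw [hk, dif_pos h1]
      · rw [hk1 s h1]
        exact hfg _ (hK s h h1)
    obtain ⟨h, hh⟩ := hom_ex (M := M) (p := p) k (by
      intro s t h0
      by_cases hs : s = b
      · have hsa : s ≠ a := fun h1 => hne (h1.symm.trans hs)
        have hta : t ≠ a := by
          rintro rfl
          rw [hs, M.symmetric] at h0
          exact h0 hab
        rw [hk2 s hsa, hk2 t hta]
        exact sub_braid M p _ _ _ h0 g
      · by_cases ht : t = b
        · have hta : t ≠ a := fun h1 => hne (h1.symm.trans ht)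
          have hsa : s ≠ a := by
            rintro rfl
            rw [ht] at h0
            exact h0 hab
          rw [hk2 s hsa, hk2 t hta]
          exact sub_braid M p _ _ _ h0 g
        · rw [hk1 s hs, hk1 t ht]
          exact sub_braid M p _ _ _ h0 f) (by
      intro s
      by_cases hs : s = b
      · have hsa : s ≠ a := fun h1 => hne (h1.symm.trans hs)
        rw [hk2 s hsa]
        exact sub_pow M p _ _ g
      · rw [hk1 s hs]
        exact sub_pow M p _ _ f)
    refine ⟨h, ?_, ?_⟩
    · rintro ⟨_, x, rfl⟩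
      have h1 : h.comp (inc M p (inj1 fun s => s ≠ b)) =
          f.comp (inc M p (inj1 fun s => s ≠ b)).rangeRestrict := by
        apply PresentedGroup.ext
        rintro ⟨s, hs⟩
        rw [MonoidHom.comp_apply, MonoidHom.comp_apply, inc_of, hh, hk1 s hs]
        congr 1
      exact DFunLike.congr_fun h1 x
    · rintro ⟨_, x, rfl⟩
      have h1 : h.comp (inc M p (inj1 fun s => s ≠ a)) =
          g.comp (inc M p (inj1 fun s => s ≠ a)).rangeRestrict := by
        apply PresentedGroup.ext
        rintro ⟨s, hs⟩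
        rw [MonoidHom.comp_apply, MonoidHom.comp_apply, inc_of, hh, hk2 s hs]
        congr 1
      exact DFunLike.congr_fun h1 x

variable {M p} {C : ∀ (G : Type) [Group G], Prop}

theorem step (hC : ClosedE C) [Finite S] (hp : Ord M p) {a b : S} (hab : M a b = 0)
    (hW : C M.Group)
    (h1 : C (Shep (cm M _ (inj1 fun s => s ≠ b)) fun t => p t.1))
    (h2 : C (Shep (cm M _ (inj1 fun s => s ≠ a)) fun t => p t.1)) : C (Shep M p) := by
  obtain ⟨P, _, f, hP, hf⟩ := exists_hom (inj1 fun s => s ≠ b) hC hp hW h1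
  obtain ⟨P', _, f', hP', hf'⟩ := exists_hom (inj1 fun s => s ≠ a) hC hp hW h2
  refine am C hC (Shep M p) (P × P') _ _ _ (amg M p hab) (f.prod f') ?_ ?_
    (hC.base.prod _ _ hP hP')
  · rintro _ ⟨x, rfl⟩ hx
    have h3 : f (inc M p (inj1 fun s => s ≠ b) x) = 1 := congrArg Prod.fst hx
    have h4 : x = 1 := (injective_iff_map_eq_one _).1 hf x h3
    rw [h4, map_one]
  · rintro _ ⟨x, rfl⟩ hx
    have h3 : f' (inc M p (inj1 fun s => s ≠ a) x) = 1 := congrArg Prod.snd hx
    have h4 : x = 1 := (injective_iff_map_eq_one _).1 hf' x h3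
    rw [h4, map_one]

theorem fin_case (hC : ClosedE C) (hW : ∀ (T : Type) [Finite T] (M' : CoxeterMatrix T), C M'.Group)
    (n : ℕ) : ∀ (S : Type) [Finite S] (M : CoxeterMatrix S) (p : S → ℕ), Ord M p →
      Nat.card S = n → (∀ (T : Type) [Finite T] (ι : T → S) (hι : Function.Injective ι),
        (∀ u v, M (ι u) (ι v) ≠ 0) → C (Shep (cm M ι hι) fun t => p (ι t))) → C (Shep M p) := by
  induction n with
  | zero =>
    intro S _ M p hp hn hcl
    have hS : IsEmpty S := Finite.card_eq_zero_iff.1 hn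
    exact hcl S id Function.injective_id fun u => (hS.false u).elim
  | succ n ih =>
    intro S _ M p hp hn hcl
    by_cases h : ∀ s t, M s t ≠ 0
    · exact hcl S id Function.injective_id h
    · push Not at h
      obtain ⟨a, b, hab⟩ := h
      have hcard : ∀ c : S, Nat.card {s // s ≠ c} = n := by
        intro c
        classical
        have := Fintype.ofFinite S
        rw [Nat.card_eq_fintype_card] at hn ⊢
        rw [Fintype.card_subtype_compl, Fintype.card_subtype_eq, hn]
        rfl
      refine step hC hp hab (hW S M) ?_ ?_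
      · refine ih _ (cm M _ (inj1 fun s => s ≠ b)) _ (hp.res _) (hcard b) ?_
        intro T _ ι hι h
        exact hcl T (fun t => (ι t).1) (fun x y hxy => hι (Subtype.ext hxy)) h
      · refine ih _ (cm M _ (inj1 fun s => s ≠ a)) _ (hp.res _) (hcard a) ?_
        intro T _ ι hι h
        exact hcl T (fun t => (ι t).1) (fun x y hxy => hι (Subtype.ext hxy)) h

end step

section infinite

variable {S : Type} {M : CoxeterMatrix S} {p : S → ℕ} {C : ∀ (G : Type) [Group G], Prop}

theorem colim_case (hC : ClosedE C) (hp : Ord M p)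
    (h : ∀ F : Finset S, C (Shep (cm M _ (inj1 fun s => s ∈ F)) fun t => p t.1)) :
    C (Shep M p) := by
  classical
  have hmono : ∀ F F' : Finset S, F ≤ F' → (inc M p (inj1 fun s => s ∈ F)).range ≤
      (inc M p (inj1 fun s => s ∈ F')).range := fun F F' hF =>
    range_le M p _ _ fun t => ⟨⟨t.1, hF t.2⟩, rfl⟩
  refine hC.base.colim (Finset S) (fun i j => ⟨i ∪ j, Finset.subset_union_left,
    Finset.subset_union_right⟩) (fun F => (inc M p (inj1 fun s => s ∈ F)).range)
    (fun i j hij => Subgroup.inclusion (hmono i j hij)) (Shep M p) (fun F => Subgroup.subtype _)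
    ?_ ?_ ?_ ?_ ?_ ?_
  · intro i h x
    rfl
  · intro i j k h h' x
    rfl
  · intro i j h x
    rfl
  · intro y
    refine sh_ind (P := fun y => ∃ F : Finset S, ∃ x : (inc M p (inj1 fun s => s ∈ F)).range,
      Subgroup.subtype _ x = y) ?_ ?_ ?_ ?_ y
    · exact ⟨∅, 1, rfl⟩
    · rintro _ _ ⟨F, x, rfl⟩ ⟨F', x', rfl⟩
      exact ⟨F ∪ F', ⟨x.1 * x'.1, mul_mem (hmono F _ Finset.subset_union_left x.2)
        (hmono F' _ Finset.subset_union_right x'.2)⟩, rfl⟩
    · rintro _ ⟨F, x, rfl⟩
      exact ⟨F, x⁻¹, rfl⟩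
    · intro s
      exact ⟨{s}, ⟨_, of_mem M p (inj1 fun t => t ∈ ({s} : Finset S))
        ⟨s, Finset.mem_singleton_self s⟩⟩, rfl⟩
  · intro i x hx
    exact ⟨i, le_rfl, Subtype.ext hx⟩
  · intro F
    refine hC.base.of_injective _ _
      (MonoidHom.ofInjective (inc_injective (inj1 fun s => s ∈ F) hp)).symm.toMonoidHom
      (MulEquiv.injective _) (h F)

/-- **Shephard groups with even orders: the reduction to the parabolic subgroups without infinite
labels** -/
theorem shep_main (hC : ClosedE C)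
    (hW : ∀ (T : Type) [Finite T] (M' : CoxeterMatrix T), C M'.Group) (hp : Ord M p) :
    C (Shep M p) ↔ ∀ F : Finset S, (∀ s ∈ F, ∀ t ∈ F, M s t ≠ 0) →
      C (Shep (cm M _ (inj1 fun s => s ∈ F)) fun t => p t.1) := by
  classical
  constructor
  · intro h F _
    exact hC.base.of_injective _ _ (inc M p (inj1 fun s => s ∈ F)) (inc_injective _ hp) h
  · intro h
    refine colim_case hC hp fun F => ?_
    refine fin_case hC hW _ _ _ _ (hp.res _) rfl ?_
    intro T _ ι hι hT
    -- the finite set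
    have := Fintype.ofFinite T
    obtain ⟨R, hR⟩ : ∃ R : Finset S, R = Finset.univ.image fun t : T => ((ι t).1 : S) := ⟨_, rfl⟩
    have hmem : ∀ t : T, (ι t).1 ∈ R := fun t => by
      rw [hR]
      exact Finset.mem_image_of_mem _ (Finset.mem_univ t)
    have h1 := h R (by
      intro s hs t ht
      rw [hR, Finset.mem_image] at hs ht
      obtain ⟨u, _, rfl⟩ := hs
      obtain ⟨v, _, rfl⟩ := ht
      exact hT u v)
    have hinj : Function.Injective fun t : T => (⟨(ι t).1, hmem t⟩ : {s // s ∈ R}) := by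
      intro x y hxy
      have h2 := congrArg Subtype.val hxy
      exact hι (Subtype.ext h2)
    exact hC.base.of_injective _ _ (inc (cm M _ (inj1 fun s => s ∈ R)) (fun t => p t.1) hinj)
      (inc_injective _ (hp.res _)) h1

end infinite

end Pool.Agent.N509.SH
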